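import Mathlib
import Pool.Agent.H437R2.Man.MWWeak

/-!
PROJECT RW (MP_d0a72d_lc, full negative answer).  The curve `y² = x (x + 5) (x - 5)` over the
rationals, its points in the coset `P + 2E(ℚ)`, `P = (-4, 6)`, and the polynomial
`(U²+5T²-V²)² + (5T²-U²-W²)² + (aU+bT-1)² + (V·F(U,T)·z-1)²`.
-/

set_option autoImplicit false

open WeierstrassCurve

namespace Pool.Agent.Y336.RW

/-- rational points of `y² = x (x + 5) (x - 5)` -/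
abbrev E : Type := Pool.Agent.H437R2.Man.MW.Pt (K := ℚ) 0 5 (-5)

/-- first coordinate (0 at infinity) -/
def xc : E → ℚ
  | .zero => 0
  | .some x _ _ => x

/-- second coordinate (0 at infinity) -/
def yc : E → ℚ
  | .zero => 0
  | .some _ y _ => y

/-- the basic facts on the group law -/
structure Grp : Prop where
  eqn : ∀ R : E, R ≠ 0 → yc R ^ 2 = xc R ^ 3 - 25 * xc R
  ex : ∀ x y : ℚ, y ^ 2 = x ^ 3 - 25 * x → ∃ R : E, R ≠ 0 ∧ xc R = x ∧ yc R = y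
  ext : ∀ R S : E, R ≠ 0 → S ≠ 0 → xc R = xc S → (R = S ∨ R = -S)
  ext2 : ∀ R S : E, R ≠ 0 → S ≠ 0 → xc R = xc S → yc R = yc S → R = S
  neg : ∀ R : E, R ≠ 0 → -R ≠ 0 ∧ xc (-R) = xc R ∧ yc (-R) = -yc R
  dbl0 : ∀ R : E, R ≠ 0 → yc R = 0 → R + R = 0
  dbl : ∀ R : E, R ≠ 0 → yc R ≠ 0 → R + R ≠ 0 ∧
    xc (R + R) * (4 * yc R ^ 2) = (xc R ^ 2 + 25) ^ 2
  add : ∀ R S : E, R ≠ 0 → S ≠ 0 → xc R ≠ xc S → R + S ≠ 0 ∧ R - S ≠ 0 ∧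
    (xc (R + S) + xc (R - S)) * (xc R - xc S) ^ 2
      = 2 * (xc R + xc S) * (xc R * xc S - 25) ∧
    xc (R + S) * xc (R - S) * (xc R - xc S) ^ 2 = (xc R * xc S + 25) ^ 2
  fg : AddGroup.FG E

/-- classes modulo squares -/
structure Cls : Prop where
  /-- the class is multiplicative -/
  mul : ∀ R S : E, R ≠ 0 → S ≠ 0 → R + S ≠ 0 → ∀ e : ℚ, (e = 0 ∨ e = 5 ∨ e = -5) →
    IsSquare ((xc R - e) * (xc S - e) * (xc (R + S) - e))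
  /-- points with the same nonzero classes differ by a double -/
  half : ∀ R S : E, R ≠ 0 → S ≠ 0 → yc R ≠ 0 → yc S ≠ 0 →
    IsSquare (xc R * xc S) → IsSquare ((xc R - 5) * (xc S - 5)) →
    IsSquare ((xc R + 5) * (xc S + 5)) → ∃ Q : E, R + S = Q + Q

/-- the eight classes -/
def classes : List (ℚ × ℚ × ℚ) :=
  [(1, 1, 1), (-1, -5, 5), (5, 2, 10), (-5, -10, 2),
   (-1, -1, 1), (1, 5, 5), (-5, -2, 10), (5, 10, 2)]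

/-- 2-descent (pure arithmetic): `x, x - 5, x + 5` have one of eight classes -/
def Desc : Prop := ∀ x y : ℚ, y ≠ 0 → y ^ 2 = x ^ 3 - 25 * x →
  ∃ c ∈ classes, IsSquare (x * c.1) ∧ IsSquare ((x - 5) * c.2.1) ∧ IsSquare ((x + 5) * c.2.2)

/-- torsion points are killed by 2 -/
def Tor : Prop := ∀ R : E, R + R ≠ 0 → ∀ n : ℕ, 0 < n → n • R ≠ 0

/-- the coset of `P = (-4, 6)` modulo doubles -/
def InC (R : E) : Prop :=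
  R ≠ 0 ∧ ∃ u v w : ℚ, xc R = -u ^ 2 ∧ xc R - 5 = -v ^ 2 ∧ xc R + 5 = w ^ 2

/-- structure of the coset -/
def Str : Prop := ∃ P0 : E, (∀ R : E, InC R → ∃ a : ℤ, Odd a ∧ R = a • P0) ∧
  ∀ a : ℤ, Odd a → InC (a • P0)

/-- kernel of reduction -/
def Ker (p : ℕ) (R : E) : Prop := R = 0 ∨ 1 < padicNorm p (xc R)

/-- `R` reduces to the point `(5, 0)` of order 2 -/
def K2 (p : ℕ) (R : E) : Prop := R ≠ 0 ∧ padicNorm p (xc R - 5) < 1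

/-- `R` reduces to a point of order 3 -/
def K3 (p : ℕ) (R : E) : Prop := R ≠ 0 ∧ padicNorm p (xc R) ≤ 1 ∧
  padicNorm p (3 * xc R ^ 4 - 150 * xc R ^ 2 - 625) < 1

/-- adding a point of the kernel does not change the reduction -/
def Red : Prop := ∀ p : ℕ, p.Prime → ∀ D R : E, Ker p D → R ≠ 0 → padicNorm p (xc R) ≤ 1 →
  R + D ≠ 0 ∧ padicNorm p (xc (R + D) - xc R) < 1

/-- consequences for multiples -/
structure Kill : Prop where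
  c2 : ∀ p : ℕ, p.Prime → 7 ≤ p → ∀ R : E, K2 p R → ∀ a : ℤ, Odd a → K2 p (a • R)
  c3 : ∀ p : ℕ, p.Prime → 7 ≤ p → ∀ R : E, K3 p R → ∀ a : ℤ, ¬ (3 : ℤ) ∣ a → K3 p (a • R)
  k3 : ∀ p : ℕ, p.Prime → 7 ≤ p → ∀ R : E, K3 p R → ∀ a : ℤ, (3 : ℤ) ∣ a → Ker p (a • R)

/-- tripling: a prime dividing `h(x(R))` divides `x(3R) - 5` but not `x(R) - 5` -/
def Trip : Prop := ∀ q : ℕ, q.Prime → 7 ≤ q → ∀ R : E, R ≠ 0 → padicNorm q (xc R) ≤ 1 →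
  padicNorm q (xc R ^ 4 - 20 * xc R ^ 3 - 150 * xc R ^ 2 - 500 * xc R + 625) < 1 →
  K2 q (R + R + R) ∧ ¬ K2 q R

/-- existence of primes (pure arithmetic) -/
def Pri : Prop := ∀ x u v w : ℚ, x = -u ^ 2 → x - 5 = -v ^ 2 → x + 5 = w ^ 2 →
  (∃ p : ℕ, p.Prime ∧ 7 ≤ p ∧ padicNorm p x ≤ 1 ∧
    padicNorm p (3 * x ^ 4 - 150 * x ^ 2 - 625) < 1) ∧
  (∃ q : ℕ, q.Prime ∧ 7 ≤ q ∧ padicNorm q x ≤ 1 ∧
    padicNorm q (x ^ 4 - 20 * x ^ 3 - 150 * x ^ 2 - 500 * x + 625) < 1)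

/-- solvability in rationals that are integral at all primes of `G` -/
def Sol (G : Set ℕ) : Prop := ∃ U V W T a b z : ℚ,
  (∀ p ∈ G, padicNorm p U ≤ 1 ∧ padicNorm p V ≤ 1 ∧ padicNorm p W ≤ 1 ∧ padicNorm p T ≤ 1 ∧
    padicNorm p a ≤ 1 ∧ padicNorm p b ≤ 1 ∧ padicNorm p z ≤ 1) ∧
  U ^ 2 + 5 * T ^ 2 = V ^ 2 ∧ 5 * T ^ 2 - U ^ 2 = W ^ 2 ∧ a * U + b * T = 1 ∧
  V * (3 * U ^ 8 - 150 * U ^ 4 * T ^ 4 - 625 * T ^ 8) * z = 1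

/-- solutions and points -/
structure SolPt : Prop where
  pt : ∀ G : Set ℕ, (∀ p ∈ G, p.Prime) → Sol G → ∃ R : E, InC R ∧ ∀ p ∈ G, ¬ K2 p R ∧ ¬ K3 p R
  sol : ∀ R : E, InC R → ∀ G : Set ℕ, G.Finite → (∀ p ∈ G, p.Prime ∧ 7 ≤ p ∧ Ker p R) → Sol G

/-- the arithmetic heart -/
def Heart : Prop := ∃ Q : Set ℕ, (∀ p ∈ Q, p.Prime) ∧
  (∀ G : Set ℕ, G.Finite → G ⊆ Q → Sol G) ∧
  (∀ F : Set ℕ, F.Finite → Disjoint F Q → ∃ G : Set ℕ, G.Finite ∧ (∀ p ∈ G, p.Prime) ∧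
    Disjoint G F ∧ ¬ Sol G)

end Pool.Agent.Y336.RW
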