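import Mathlib
import Pool.Agent.Y336.RW.Stm

set_option autoImplicit false

namespace Pool.Agent.Y336.RW

theorem exists_level (a : ℤ) (n : ℕ) (h : ¬ (3 ^ (n + 1) : ℤ) ∣ a) :
    ∃ j ≤ n, (3 ^ j : ℤ) ∣ a ∧ ¬ (3 ^ (j + 1) : ℤ) ∣ a := by
  induction n with
  | zero => exact ⟨0, le_refl _, by simp, h⟩
  | succ n ih =>
    by_cases h' : (3 ^ (n + 1) : ℤ) ∣ a
    · exact ⟨n + 1, le_refl _, h', h⟩
    · obtain ⟨j, hj, h1, h2⟩ := ih h'
      exact ⟨j, by omega, h1, h2⟩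

theorem heart (hS : Str) (hP : Pri) (hK : Kill) (hT : Trip) (hL : SolPt) : Heart := by
  obtain ⟨P0, h1, h2⟩ := hS
  have hin : ∀ j : ℕ, InC ((3 ^ j : ℤ) • P0) := fun j => h2 _ (Odd.pow (by decide))
  have hp : ∀ j : ℕ, ∃ p : ℕ, p.Prime ∧ 7 ≤ p ∧ K3 p ((3 ^ j : ℤ) • P0) := by
    intro j
    obtain ⟨h0, u, v, w, e1, e2, e3⟩ := hin j
    obtain ⟨⟨p, pp, p7, n1, n2⟩, -⟩ := hP _ u v w e1 e2 e3
    exact ⟨p, pp, p7, h0, n1, n2⟩
  have hq : ∀ j : ℕ, ∃ q : ℕ, q.Prime ∧ 7 ≤ q ∧ K2 q ((3 ^ (j + 1) : ℤ) • P0) ∧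
      ¬ K2 q ((3 ^ j : ℤ) • P0) := by
    intro j
    obtain ⟨h0, u, v, w, e1, e2, e3⟩ := hin j
    obtain ⟨-, ⟨q, qq, q7, n1, n2⟩⟩ := hP _ u v w e1 e2 e3
    obtain ⟨k1, k2⟩ := hT q qq q7 _ h0 n1 n2
    refine ⟨q, qq, q7, ?_, k2⟩
    have : (3 ^ (j + 1) : ℤ) • P0
        = (3 ^ j : ℤ) • P0 + (3 ^ j : ℤ) • P0 + (3 ^ j : ℤ) • P0 := by
      rw [← add_smul, ← add_smul]; congr 1; ring
    rw [this]; exact k1
  choose p pp p7 pk using hp
  choose q qq q7 qk qn using hq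
  refine ⟨{r | r.Prime ∧ 7 ≤ r ∧ ∃ j : ℕ, K3 r ((3 ^ j : ℤ) • P0)}, fun r hr => hr.1, ?_, ?_⟩
  · intro G hG hGQ
    choose! j hj using fun r (hr : r ∈ G) => (hGQ hr).2.2
    obtain ⟨J, hJ⟩ := (hG.image j).bddAbove
    refine hL.sol ((3 ^ (J + 1) : ℤ) • P0) (hin _) G hG ?_
    intro r hr
    have hjr : j r ≤ J := hJ ⟨r, hr, rfl⟩
    refine ⟨(hGQ hr).1, (hGQ hr).2.1, ?_⟩
    have : (3 ^ (J + 1) : ℤ) • P0 = (3 ^ (J + 1 - j r) : ℤ) • ((3 ^ (j r) : ℤ) • P0) := by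
      rw [smul_smul, ← pow_add]; congr 2; omega
    rw [this]
    exact hK.k3 r (hGQ hr).1 (hGQ hr).2.1 _ (hj r hr) _ (dvd_pow_self 3 (by omega))
  · intro F hF hFQ
    have hinj : Function.Injective q := by
      intro n m hnm
      by_contra hne
      wlog hlt : n < m generalizing n m
      · exact this hnm.symm (Ne.symm hne) (by omega)
      apply qn m
      have : (3 ^ m : ℤ) • P0 = (3 ^ (m - (n + 1)) : ℤ) • ((3 ^ (n + 1) : ℤ) • P0) := by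
        rw [smul_smul, ← pow_add]; congr 2; omega
      rw [← hnm, this]
      exact hK.c2 (q n) (qq n) (q7 n) _ (qk n) _ (Odd.pow (by decide))
    obtain ⟨n, hn⟩ : ∃ n, q n ∉ F := by
      by_contra hcon
      push Not at hcon
      exact (Set.infinite_range_of_injective hinj)
        (hF.subset (by rintro _ ⟨n, rfl⟩; exact hcon n))
    have hprime : ∀ r ∈ p '' (Set.Iic n) ∪ {q n}, r.Prime := by
      rintro r (⟨i, -, rfl⟩ | rfl)
      · exact pp i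
      · exact qq n
    refine ⟨p '' (Set.Iic n) ∪ {q n},
      ((Set.finite_Iic n).image p).union (Set.finite_singleton _), hprime, ?_, ?_⟩
    · rw [Set.disjoint_left]
      rintro r (⟨i, -, rfl⟩ | rfl) hrF
      · exact Set.disjoint_left.mp hFQ hrF ⟨pp i, p7 i, i, pk i⟩
      · exact hn hrF
    · intro hSol
      obtain ⟨R, hR, hRG⟩ := hL.pt _ hprime hSol
      obtain ⟨a, ha, rfl⟩ := h1 R hR
      by_cases h3 : (3 ^ (n + 1) : ℤ) ∣ a
      · obtain ⟨b, rfl⟩ := h3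
        apply (hRG (q n) (Or.inr rfl)).1
        have hb : Odd b := (Int.odd_mul.mp ha).2
        rw [mul_comm, ← smul_smul]
        exact hK.c2 (q n) (qq n) (q7 n) _ (qk n) _ hb
      · obtain ⟨j, hj, ⟨b, rfl⟩, h4⟩ := exists_level a n h3
        apply (hRG (p j) (Or.inl ⟨j, hj, rfl⟩)).2
        have hb : ¬ (3 : ℤ) ∣ b := by
          rintro ⟨c, rfl⟩
          exact h4 ⟨c, by ring⟩
        rw [mul_comm, ← smul_smul]
        exact hK.c3 (p j) (pp j) (p7 j) _ (pk j) _ hb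

end Pool.Agent.Y336.RW
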