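import Mathlib
import Pool.Agent.Y336.RW.Stm

set_option autoImplicit false

namespace Pool.Agent.Y336.RW

/-- the subring `ℤ[1/p : p ∈ W]` of `ℚ` -/
def RR (W : Nat.Primes → Bool) : Subring ℚ :=
  Subring.closure {x : ℚ | ∃ p : Nat.Primes, W p = true ∧ x = 1 / ((p : ℕ) : ℚ)}

/-- the set of `W` for which `f` has a solution in `ℤ[1/p : p ∈ W]` -/
def AA {n : ℕ} (f : MvPolynomial (Fin n) ℤ) : Set (Nat.Primes → Bool) :=
  {W | ∃ a : Fin n → ℚ, (∀ i, a i ∈ RR W) ∧ MvPolynomial.aeval a f = 0}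

/-- the interior of the complement -/
def CC {n : ℕ} (f : MvPolynomial (Fin n) ℤ) : Set (Nat.Primes → Bool) := interior (AA f)ᶜ

/-- basic open sets -/
def UU (F G : Finset Nat.Primes) : Set (Nat.Primes → Bool) :=
  {W | (∀ p ∈ F, W p = true) ∧ ∀ p ∈ G, W p = false}

theorem inv_mem (W : Nat.Primes → Bool) (d : ℕ) (hd : d ≠ 0)
    (h : ∀ p : Nat.Primes, (p : ℕ) ∣ d → W p = true) : (1 / (d : ℚ)) ∈ RR W := by
  induction d using Nat.strong_induction_on with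
  | _ d ih =>
    by_cases h1 : d = 1
    · subst h1
      simp [(RR W).one_mem]
    · have hp := Nat.minFac_prime h1
      obtain ⟨e, he⟩ := Nat.minFac_dvd d
      have he0 : e ≠ 0 := by rintro rfl; apply hd; rw [he]; simp
      have hlt : e < d := by
        rw [he]
        have := hp.two_le
        nlinarith [Nat.pos_of_ne_zero he0]
      have h2 := ih e hlt he0 (fun p hpe => h p (by rw [he]; exact Dvd.dvd.mul_left hpe _))
      have h3 : (1 / ((d.minFac : ℕ) : ℚ)) ∈ RR W := by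
        apply Subring.subset_closure
        exact ⟨⟨d.minFac, hp⟩, h ⟨d.minFac, hp⟩ (Nat.minFac_dvd d), rfl⟩
      have h4 : (1 / (d : ℚ)) = 1 / ((d.minFac : ℕ) : ℚ) * (1 / (e : ℚ)) := by
        have : (d : ℚ) = (d.minFac : ℚ) * (e : ℚ) := by exact_mod_cast he
        rw [one_div_mul_one_div, ← this]
      rw [h4]
      exact (RR W).mul_mem h3 h2

theorem mem_RR (W : Nat.Primes → Bool) (x : ℚ) :
    x ∈ RR W ↔ ∀ p : Nat.Primes, W p = false → padicNorm p x ≤ 1 := by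
  constructor
  · intro hx p hp
    have : Fact (p : ℕ).Prime := ⟨p.2⟩
    refine Subring.closure_induction (p := fun y _ => padicNorm p y ≤ 1) ?_ ?_ ?_ ?_ ?_ ?_ hx
    · rintro y ⟨q, hq, rfl⟩
      have hne : (p : ℕ) ≠ (q : ℕ) := by
        intro h
        have : p = q := Subtype.ext h
        rw [this, hq] at hp
        exact absurd hp (by decide)
      have h1 : padicNorm p ((q : ℕ) : ℚ) = 1 := by
        apply padicNorm.nat_eq_one_iff .. |>.mpr
        intro h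
        exact hne ((Nat.prime_dvd_prime_iff_eq p.2 q.2).mp h)
      rw [padicNorm.div, h1]; simp
    · simp
    · simp
    · intro a b _ _ ha hb
      exact le_trans padicNorm.nonarchimedean (max_le ha hb)
    · intro a _ ha
      rwa [padicNorm.neg]
    · intro a b _ _ ha hb
      rw [padicNorm.mul]
      exact mul_le_one₀ ha (padicNorm.nonneg _) hb
  · intro h
    have h1 : (1 / (x.den : ℚ)) ∈ RR W := by
      apply inv_mem W x.den x.den_nz
      intro p hp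
      by_contra hW
      have hW' : W p = false := by simpa using hW
      have : Fact (p : ℕ).Prime := ⟨p.2⟩
      have h2 := h p hW'
      have h3 : padicNorm p (x.den : ℚ) < 1 := by
        apply lt_of_le_of_ne (padicNorm.of_nat _)
        intro h4
        exact (padicNorm.nat_eq_one_iff .. |>.mp h4) hp
      have h5 : padicNorm p (x.num : ℚ) = 1 := by
        apply padicNorm.int_eq_one_iff .. |>.mpr
        intro h6
        have h7 : (p : ℕ) ∣ x.num.natAbs := by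
          have := Int.natAbs_dvd_natAbs.mpr h6
          simpa using this
        have h8 := Nat.dvd_gcd h7 hp
        rw [x.reduced] at h8
        exact p.2.one_lt.ne' (Nat.dvd_one.mp h8)
      have h9 : padicNorm p x * padicNorm p (x.den : ℚ) = 1 := by
        rw [← padicNorm.mul, Rat.mul_den_eq_num, h5]
      have h10 : 0 ≤ padicNorm p x := padicNorm.nonneg _
      have h11 : 0 ≤ padicNorm p (x.den : ℚ) := padicNorm.nonneg _
      nlinarith
    have h2 : x = (x.num : ℚ) * (1 / (x.den : ℚ)) := by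
      rw [mul_one_div, Rat.num_div_den]
    rw [h2]
    exact (RR W).mul_mem (intCast_mem (RR W) _) h1

open MvPolynomial in
/-- the polynomial -/
noncomputable def ff : MvPolynomial (Fin 7) ℤ :=
  (X 0 ^ 2 + 5 * X 3 ^ 2 - X 1 ^ 2) ^ 2 + (5 * X 3 ^ 2 - X 0 ^ 2 - X 2 ^ 2) ^ 2
    + (X 4 * X 0 + X 5 * X 3 - 1) ^ 2
    + (X 1 * (3 * X 0 ^ 8 - 150 * X 0 ^ 4 * X 3 ^ 4 - 625 * X 3 ^ 8) * X 6 - 1) ^ 2

theorem aeval_ff (a : Fin 7 → ℚ) : MvPolynomial.aeval a ff =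
    (a 0 ^ 2 + 5 * a 3 ^ 2 - a 1 ^ 2) ^ 2 + (5 * a 3 ^ 2 - a 0 ^ 2 - a 2 ^ 2) ^ 2
    + (a 4 * a 0 + a 5 * a 3 - 1) ^ 2
    + (a 1 * (3 * a 0 ^ 8 - 150 * a 0 ^ 4 * a 3 ^ 4 - 625 * a 3 ^ 8) * a 6 - 1) ^ 2 := by
  have h3 : (MvPolynomial.aeval a (3 : MvPolynomial (Fin 7) ℤ) : ℚ) = 3 := map_ofNat _ 3
  have h5 : (MvPolynomial.aeval a (5 : MvPolynomial (Fin 7) ℤ) : ℚ) = 5 := map_ofNat _ 5
  have h150 : (MvPolynomial.aeval a (150 : MvPolynomial (Fin 7) ℤ) : ℚ) = 150 := map_ofNat _ 150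
  have h625 : (MvPolynomial.aeval a (625 : MvPolynomial (Fin 7) ℤ) : ℚ) = 625 := map_ofNat _ 625
  simp only [ff, map_add, map_sub, map_mul, map_pow, MvPolynomial.aeval_X, map_one, h3, h5, h150,
    h625]

theorem mem_AA (W : Nat.Primes → Bool) :
    W ∈ AA ff ↔ Sol {p : ℕ | ∃ h : p.Prime, W ⟨p, h⟩ = false} := by
  constructor
  · rintro ⟨a, ha, h0⟩
    rw [aeval_ff] at h0
    refine ⟨a 0, a 1, a 2, a 3, a 4, a 5, a 6, ?_, ?_, ?_, ?_, ?_⟩
    · rintro p ⟨hp, hW⟩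
      have := fun i => (mem_RR W (a i)).mp (ha i) ⟨p, hp⟩ hW
      exact ⟨this 0, this 1, this 2, this 3, this 4, this 5, this 6⟩
    · nlinarith [sq_nonneg (a 0 ^ 2 + 5 * a 3 ^ 2 - a 1 ^ 2),
        sq_nonneg (5 * a 3 ^ 2 - a 0 ^ 2 - a 2 ^ 2), sq_nonneg (a 4 * a 0 + a 5 * a 3 - 1),
        sq_nonneg (a 1 * (3 * a 0 ^ 8 - 150 * a 0 ^ 4 * a 3 ^ 4 - 625 * a 3 ^ 8) * a 6 - 1)]
    · nlinarith [sq_nonneg (a 0 ^ 2 + 5 * a 3 ^ 2 - a 1 ^ 2),
        sq_nonneg (5 * a 3 ^ 2 - a 0 ^ 2 - a 2 ^ 2), sq_nonneg (a 4 * a 0 + a 5 * a 3 - 1),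
        sq_nonneg (a 1 * (3 * a 0 ^ 8 - 150 * a 0 ^ 4 * a 3 ^ 4 - 625 * a 3 ^ 8) * a 6 - 1)]
    · nlinarith [sq_nonneg (a 0 ^ 2 + 5 * a 3 ^ 2 - a 1 ^ 2),
        sq_nonneg (5 * a 3 ^ 2 - a 0 ^ 2 - a 2 ^ 2), sq_nonneg (a 4 * a 0 + a 5 * a 3 - 1),
        sq_nonneg (a 1 * (3 * a 0 ^ 8 - 150 * a 0 ^ 4 * a 3 ^ 4 - 625 * a 3 ^ 8) * a 6 - 1)]
    · nlinarith [sq_nonneg (a 0 ^ 2 + 5 * a 3 ^ 2 - a 1 ^ 2),
        sq_nonneg (5 * a 3 ^ 2 - a 0 ^ 2 - a 2 ^ 2), sq_nonneg (a 4 * a 0 + a 5 * a 3 - 1),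
        sq_nonneg (a 1 * (3 * a 0 ^ 8 - 150 * a 0 ^ 4 * a 3 ^ 4 - 625 * a 3 ^ 8) * a 6 - 1)]
  · rintro ⟨U, V, W', T, a, b, z, hN, e1, e2, e3, e4⟩
    refine ⟨![U, V, W', T, a, b, z], ?_, ?_⟩
    · intro i
      rw [mem_RR]
      intro p hp
      obtain ⟨n1, n2, n3, n4, n5, n6, n7⟩ := hN p ⟨p.2, hp⟩
      fin_cases i <;> assumption
    · rw [aeval_ff]
      have v0 : (![U, V, W', T, a, b, z] : Fin 7 → ℚ) 0 = U := rfl
      have v1 : (![U, V, W', T, a, b, z] : Fin 7 → ℚ) 1 = V := rfl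
      have v2 : (![U, V, W', T, a, b, z] : Fin 7 → ℚ) 2 = W' := rfl
      have v3 : (![U, V, W', T, a, b, z] : Fin 7 → ℚ) 3 = T := rfl
      have v4 : (![U, V, W', T, a, b, z] : Fin 7 → ℚ) 4 = a := rfl
      have v5 : (![U, V, W', T, a, b, z] : Fin 7 → ℚ) 5 = b := rfl
      have v6 : (![U, V, W', T, a, b, z] : Fin 7 → ℚ) 6 = z := rfl
      rw [v0, v1, v2, v3, v4, v5, v6, e1, e2, e3, e4]
      ring

theorem Sol_mono {G G' : Set ℕ} (h : G ⊆ G') (hs : Sol G') : Sol G := by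
  obtain ⟨U, V, W', T, a, b, z, hN, e⟩ := hs
  exact ⟨U, V, W', T, a, b, z, fun p hp => hN p (h hp), e⟩

theorem isClosed_UU (F G : Finset Nat.Primes) : IsClosed (UU F G) := by
  have : UU F G = (⋂ p ∈ F, (fun W : Nat.Primes → Bool => W p) ⁻¹' {true}) ∩
      (⋂ p ∈ G, (fun W : Nat.Primes → Bool => W p) ⁻¹' {false}) := by
    ext W
    simp [UU]
  rw [this]
  refine IsClosed.inter ?_ ?_
  · exact isClosed_biInter fun p _ => (isClosed_discrete _).preimage (continuous_apply p)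
  · exact isClosed_biInter fun p _ => (isClosed_discrete _).preimage (continuous_apply p)

theorem exists_finset_nhd {O : Set (Nat.Primes → Bool)} (hO : IsOpen O) {W : Nat.Primes → Bool}
    (hW : W ∈ O) : ∃ I : Finset Nat.Primes, ∀ W' : Nat.Primes → Bool,
      (∀ p ∈ I, W' p = W p) → W' ∈ O := by
  rw [isOpen_pi_iff] at hO
  obtain ⟨I, u, hu, hsub⟩ := hO W hW
  refine ⟨I, fun W' h => hsub ?_⟩
  intro p hp
  rw [h p hp]
  exact (hu p hp).2

theorem not_isClosed_CC (H : Heart) : ¬ IsClosed (CC ff) := by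
  classical
  intro hcl
  obtain ⟨Q, hQp, hQ1, hQ2⟩ := H
  let W0 : Nat.Primes → Bool := fun p => decide ((p : ℕ) ∉ Q)
  have hin : W0 ∈ closure (CC ff) := by
    rw [mem_closure_iff]
    intro O hO hW
    obtain ⟨I, hI⟩ := exists_finset_nhd hO hW
    let F : Set ℕ := {p | ∃ h : p.Prime, (⟨p, h⟩ : Nat.Primes) ∈ I ∧ p ∉ Q}
    have hF : F.Finite := by
      apply ((I.finite_toSet).image (fun p : Nat.Primes => (p : ℕ))).subset
      rintro p ⟨h, h1, -⟩
      exact ⟨⟨p, h⟩, h1, rfl⟩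
    have hFQ : Disjoint F Q := by
      rw [Set.disjoint_left]
      rintro p ⟨h, -, h2⟩
      exact h2
    obtain ⟨G, hG, hGp, hGF, hGS⟩ := hQ2 F hF hFQ
    let W1 : Nat.Primes → Bool := fun p => decide (p ∈ I ∧ (p : ℕ) ∉ Q)
    refine ⟨W1, hI W1 ?_, ?_⟩
    · intro p hp
      simp [W1, W0, hp]
    · rw [CC, mem_interior]
      refine ⟨{W | ∀ p : Nat.Primes, (p : ℕ) ∈ G → W p = false}, ?_, ?_, ?_⟩
      · intro W hW hA
        rw [mem_AA] at hA
        refine hGS (Sol_mono ?_ hA)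
        intro p hp
        exact ⟨hGp p hp, hW ⟨p, hGp p hp⟩ hp⟩
      · have hGfin : {p : Nat.Primes | (p : ℕ) ∈ G}.Finite :=
          hG.preimage (Subtype.val_injective.injOn)
        have : {W : Nat.Primes → Bool | ∀ p : Nat.Primes, (p : ℕ) ∈ G → W p = false}
            = ⋂ p ∈ {p : Nat.Primes | (p : ℕ) ∈ G},
              (fun W : Nat.Primes → Bool => W p) ⁻¹' {false} := by
          ext W; simp
        rw [this]
        exact hGfin.isOpen_biInter fun p _ => (isOpen_discrete _).preimage (continuous_apply p)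
      · intro p hp
        have : ¬ (p ∈ I ∧ (p : ℕ) ∉ Q) := by
          rintro ⟨h1, h2⟩
          exact Set.disjoint_left.mp hGF hp (show (p : ℕ) ∈ F from ⟨p.2, h1, h2⟩)
        simp only [W1, decide_eq_false this]
  rw [hcl.closure_eq] at hin
  obtain ⟨I, hI⟩ := exists_finset_nhd (isOpen_interior) hin
  let W2 : Nat.Primes → Bool := fun p => decide (¬ (p ∈ I ∧ (p : ℕ) ∈ Q))
  have h2 : W2 ∈ CC ff := by
    apply hI
    intro p hp
    simp [W2, W0, hp]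
  apply interior_subset h2
  rw [mem_AA]
  apply hQ1
  · apply ((I.finite_toSet).image (fun p : Nat.Primes => (p : ℕ))).subset
    rintro p ⟨h, h1⟩
    simp only [W2, decide_eq_false_iff_not, not_not] at h1
    have : (⟨p, h⟩ : Nat.Primes) ∈ I ∧ p ∈ Q := h1
    exact ⟨⟨p, h⟩, this.1, rfl⟩
  · rintro p ⟨h, h1⟩
    simp only [W2, decide_eq_false_iff_not, not_not] at h1
    have : (⟨p, h⟩ : Nat.Primes) ∈ I ∧ p ∈ Q := h1
    exact this.2

theorem top (H : Heart) : ∃ (n : ℕ) (f : MvPolynomial (Fin n) ℤ), 1 ≤ n ∧ ¬ IsClosed (CC f) ∧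
    ¬ ∃ S : Finset (Finset Nat.Primes × Finset Nat.Primes), CC f = ⋃ s ∈ S, UU s.1 s.2 := by
  refine ⟨7, ff, by norm_num, not_isClosed_CC H, ?_⟩
  rintro ⟨S, hS⟩
  apply not_isClosed_CC H
  rw [hS]
  exact isClosed_biUnion_finset fun s _ => isClosed_UU s.1 s.2

end Pool.Agent.Y336.RW
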