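import Mathlib
import Pool.Agent.Y336.RW.Heart
import Pool.Agent.Y336.RW.Top
import Pool.Agent.Y921.RW.Grp
import Pool.Agent.Y921.RW.Red
import Pool.Agent.Y50.RW.CLS
import Pool.Agent.Y726.RW.Desc
import Pool.Agent.Y950.RW.Str
import Pool.Agent.Y431.RW.KILL
import Pool.Agent.Y469.RW.Trip
import Pool.Agent.Y195.RW.PRI
import Pool.Agent.Y170.RW.Sol

set_option autoImplicit false

namespace Pool.Agent.Y336.RW

theorem heart_holds : Heart :=
  heart (Pool.Agent.Y950.RW.str Pool.Agent.Y921.RW.grp Pool.Agent.Y50.RW.cls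
      Pool.Agent.Y726.RW.desc (Pool.Agent.Y921.RW.tor Pool.Agent.Y921.RW.grp))
    Pool.Agent.Y195.RW.pri
    (Pool.Agent.Y431.RW.kill Pool.Agent.Y921.RW.grp
      (Pool.Agent.Y921.RW.red Pool.Agent.Y921.RW.grp))
    (Pool.Agent.Y469.RW.trip Pool.Agent.Y921.RW.grp)
    (Pool.Agent.Y170.RW.solpt Pool.Agent.Y921.RW.grp)

end Pool.Agent.Y336.RW
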